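import Mathlib

set_option autoImplicit false

/-! The Mellin transform of a residue times a cut-off. -/

namespace Pool.Agent.K4H24.RS

open Complex MeasureTheory Filter Topology Set

noncomputable section

lemma int_exp (g : ℝ → ℂ) : ∫ y in Ioi (0:ℝ), g y = ∫ v : ℝ, (Real.exp v : ℂ) * g (Real.exp v) := by
  have h := integral_image_eq_integral_abs_deriv_smul (s := univ) (f := Real.exp) (f' := Real.exp)
    MeasurableSet.univ (fun x _ => (Real.hasDerivAt_exp x).hasDerivWithinAt) Real.exp_injective.injOn g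
  rw [image_univ, Real.range_exp, setIntegral_univ] at h
  rw [h]
  refine integral_congr_ae (Eventually.of_forall fun v => ?_)
  simp only [abs_of_pos (Real.exp_pos v), real_smul]

lemma exp_cpow (v : ℝ) (w : ℂ) : ((Real.exp v : ℝ) : ℂ) ^ w = cexp (v * w) := by
  have h0 : ((Real.exp v : ℝ) : ℂ) ≠ 0 := by exact_mod_cast (Real.exp_pos v).ne'
  rw [cpow_def_of_ne_zero h0, ← Complex.ofReal_log (Real.exp_pos v).le, Real.log_exp]

theorem pole_term {Q : ℂ → ℂ} (hQ : ContinuousOn Q (Metric.sphere 1 (1 / 4))) {φ : ℝ → ℂ}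
    (hφ : Continuous φ) (hc : HasCompactSupport φ) {L : ℝ} (hL : 0 < L) (s0 : ℂ) :
    ∫ y in Ioi (0:ℝ), ((2 * Real.pi * I)⁻¹ * ∮ s in C((1 : ℂ), (1 / 4 : ℝ)), Q s * (y : ℂ) ^ (s - 1)) *
      φ (Real.log y / L) * (y : ℂ) ^ (-s0) =
    (2 * Real.pi * I)⁻¹ * ∮ s in C((1 : ℂ), (1 / 4 : ℝ)), Q s *
      ((L : ℂ) * ∫ ξ : ℝ, φ ξ * cexp (ξ * ((L : ℂ) * (s - s0)))) := by
  set cm : ℝ → ℂ := circleMap 1 (1 / 4) with hcm
  set D : ℝ → ℂ := fun θ => deriv cm θ with hD
  have hcmc : Continuous cm := continuous_circleMap _ _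
  have hDc : Continuous D := by
    have : D = fun θ => circleMap 0 (1 / 4) θ * I := by
      funext θ; rw [hD, hcm]; exact deriv_circleMap _ _ _
    rw [this]
    exact (continuous_circleMap _ _).mul continuous_const
  have hQc : Continuous (fun θ => Q (cm θ)) :=
    hQ.comp_continuous hcmc (fun θ => circleMap_mem_sphere _ (by norm_num) _)
  set H : ℝ → ℝ → ℂ := fun v θ => D θ * (Q (cm θ) * (φ (v / L) * cexp (v * (cm θ - s0)))) with hH
  have hHc : Continuous (Function.uncurry H) := by
    have h1 : Continuous (fun p : ℝ × ℝ => D p.2) := hDc.comp continuous_snd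
    have h2 : Continuous (fun p : ℝ × ℝ => Q (cm p.2)) := hQc.comp continuous_snd
    have h3 : Continuous (fun p : ℝ × ℝ => φ (p.1 / L)) := hφ.comp (continuous_fst.div_const L)
    have h4 : Continuous (fun p : ℝ × ℝ => cexp ((p.1 : ℂ) * (cm p.2 - s0))) := by
      have h5 : Continuous (fun p : ℝ × ℝ => cm p.2) := hcmc.comp continuous_snd
      have h6 : Continuous (fun p : ℝ × ℝ => (p.1 : ℂ)) := Complex.continuous_ofReal.comp continuous_fst
      exact Complex.continuous_exp.comp (h6.mul (h5.sub continuous_const))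
    exact h1.mul (h2.mul (h3.mul h4))
  obtain ⟨r, hr⟩ := hc.isCompact.isBounded.subset_closedBall 0
  have hφ0 : ∀ ξ : ℝ, r < |ξ| → φ ξ = 0 := by
    intro ξ hξ
    by_contra h
    have h1 := hr (subset_tsupport _ h)
    rw [mem_closedBall_zero_iff, Real.norm_eq_abs] at h1
    linarith
  have hint : Integrable (Function.uncurry H) (volume.prod (volume.restrict (Ioc 0 (2 * Real.pi)))) := by
    have e : (volume : Measure ℝ).prod (volume.restrict (Ioc 0 (2 * Real.pi))) =
        ((volume : Measure ℝ).prod volume).restrict (univ ×ˢ Ioc 0 (2 * Real.pi)) := by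
      rw [← Measure.prod_restrict, Measure.restrict_univ]
    rw [e]
    have h1 : IntegrableOn (Function.uncurry H) (Icc (-(L * r)) (L * r) ×ˢ Icc 0 (2 * Real.pi))
        ((volume : Measure ℝ).prod volume) :=
      hHc.continuousOn.integrableOn_compact (isCompact_Icc.prod isCompact_Icc)
    refine h1.of_forall_sdiff_eq_zero (MeasurableSet.univ.prod measurableSet_Ioc) ?_
    rintro ⟨v, θ⟩ ⟨h2, h3⟩
    simp only [mem_prod, mem_univ, true_and] at h2
    have h4 : ¬ (v ∈ Icc (-(L * r)) (L * r)) := by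
      intro h5
      exact h3 ⟨h5, Ioc_subset_Icc_self h2⟩
    have h6 : r < |v / L| := by
      rw [abs_div, abs_of_pos hL, lt_div_iff₀ hL]
      by_contra h7
      push Not at h7
      rw [mul_comm] at h7
      exact h4 ⟨(abs_le.1 h7).1, (abs_le.1 h7).2⟩
    simp only [Function.uncurry, hH]
    rw [hφ0 _ h6]
    ring
  have hpi : (0:ℝ) ≤ 2 * Real.pi := by positivity
  rw [int_exp]
  have e1 : ∀ v : ℝ, (Real.exp v : ℂ) * (((2 * Real.pi * I)⁻¹ *
      ∮ s in C((1 : ℂ), (1 / 4 : ℝ)), Q s * ((Real.exp v : ℝ) : ℂ) ^ (s - 1)) *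
      φ (Real.log (Real.exp v) / L) * ((Real.exp v : ℝ) : ℂ) ^ (-s0)) =
      (2 * Real.pi * I)⁻¹ * ∫ θ in Ioc 0 (2 * Real.pi), H v θ := by
    intro v
    rw [Real.log_exp, exp_cpow]
    unfold circleIntegral
    rw [intervalIntegral.integral_of_le hpi]
    have e2 : ∀ θ : ℝ, H v θ = (cexp v * φ (v / L) * cexp (v * (-s0))) *
        (deriv (circleMap 1 (1 / 4)) θ • (Q (circleMap 1 (1 / 4) θ) *
          ((Real.exp v : ℝ) : ℂ) ^ (circleMap 1 (1 / 4) θ - 1))) := by
      intro θ
      rw [exp_cpow, smul_eq_mul, hH]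
      simp only
      have e3 : cexp (v * (cm θ - s0)) = cexp v * cexp (v * (-s0)) * cexp (v * (cm θ - 1)) := by
        rw [← Complex.exp_add, ← Complex.exp_add]
        congr 1
        ring
      rw [e3, hD, hcm]
      ring
    simp_rw [e2]
    rw [integral_const_mul, Complex.ofReal_exp]
    ring
  simp_rw [e1]
  rw [integral_const_mul, integral_integral_swap hint]
  congr 1
  unfold circleIntegral
  rw [intervalIntegral.integral_of_le hpi]
  refine integral_congr_ae (Eventually.of_forall fun θ => ?_)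
  simp only [hH, smul_eq_mul]
  rw [integral_const_mul, integral_const_mul]
  congr 1
  congr 1
  have h8 := Measure.integral_comp_div (fun ξ : ℝ => φ ξ * cexp (ξ * ((L : ℂ) * (cm θ - s0)))) L
  rw [abs_of_pos hL, real_smul] at h8
  rw [hcm] at h8 ⊢
  rw [← h8]
  refine integral_congr_ae (Eventually.of_forall fun v => ?_)
  simp only
  congr 2
  push_cast
  have : (L : ℂ) ≠ 0 := by exact_mod_cast hL.ne'
  field_simp

end

end Pool.Agent.K4H24.RS
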