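import Mathlib

set_option autoImplicit false

/-! The residue theorem for a rectangle around a pole, and for a strip. -/

namespace Pool.Agent.K4H24.RS

open Complex MeasureTheory Filter Topology Set

noncomputable section

/-- the integral along the boundary of the rectangle `[a, b] × [-Y, Y]` -/
def rectR (f : ℂ → ℂ) (a b Y : ℝ) : ℂ :=
  (∫ x in a..b, f ((x : ℂ) + (-Y : ℝ) * I)) - (∫ x in a..b, f ((x : ℂ) + (Y : ℝ) * I)) +
    I * (∫ y in (-Y)..Y, f ((b : ℂ) + (y : ℂ) * I)) - I * ∫ y in (-Y)..Y, f ((a : ℂ) + (y : ℂ) * I)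

lemma hseg {H f : ℂ → ℂ} {a b y : ℝ}
    (h : ∀ x : ℝ, HasDerivAt H (f ((x : ℂ) + (y : ℂ) * I)) ((x : ℂ) + (y : ℂ) * I))
    (hc : Continuous (fun x : ℝ => f ((x : ℂ) + (y : ℂ) * I))) :
    ∫ x in a..b, f ((x : ℂ) + (y : ℂ) * I) = H ((b : ℂ) + y * I) - H ((a : ℂ) + y * I) := by
  refine intervalIntegral.integral_eq_sub_of_hasDerivAt (f := fun x : ℝ => H ((x : ℂ) + y * I))
    (fun x _ => ?_) (hc.intervalIntegrable _ _)
  have h1 : HasDerivAt (fun x : ℝ => (x : ℂ) + (y : ℂ) * I) 1 x :=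
    (hasDerivAt_id x).ofReal_comp.add_const _
  have := (h x).comp x h1
  rw [mul_one] at this
  exact this

lemma vseg {H f : ℂ → ℂ} {c d x : ℝ}
    (h : ∀ y : ℝ, HasDerivAt H (f ((x : ℂ) + (y : ℂ) * I)) ((x : ℂ) + (y : ℂ) * I))
    (hc : Continuous (fun y : ℝ => f ((x : ℂ) + (y : ℂ) * I))) :
    I * ∫ y in c..d, f ((x : ℂ) + (y : ℂ) * I) = H ((x : ℂ) + d * I) - H ((x : ℂ) + c * I) := by
  rw [← intervalIntegral.integral_const_mul]
  refine intervalIntegral.integral_eq_sub_of_hasDerivAt (f := fun y : ℝ => H ((x : ℂ) + y * I))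
    (fun y _ => ?_) ((continuous_const.mul hc).intervalIntegrable _ _)
  have h1 : HasDerivAt (fun y : ℝ => (x : ℂ) + (y : ℂ) * I) I y := by
    have := ((hasDerivAt_id y).ofReal_comp.mul_const I).const_add (x : ℂ)
    simpa using this
  have := (h y).comp y h1
  rw [mul_comm] at this
  exact this

lemma ne_h {x y : ℝ} (hy : y ≠ 0) : ((x : ℂ) + (y : ℂ) * I) - 1 ≠ 0 := by
  intro h
  have := congrArg Complex.im h
  simp at this
  exact hy this

lemma ne_v {x y : ℝ} (hx : x ≠ 1) : ((x : ℂ) + (y : ℂ) * I) - 1 ≠ 0 := by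
  intro h
  have := congrArg Complex.re h
  simp at this
  exact hx (by linarith)

variable {a b Y : ℝ}

/-- higher order poles -/
lemma rect_high (ha : a ≠ 1) (hb : b ≠ 1) (hY : Y ≠ 0) (m : ℕ) :
    rectR (fun s => ((s - 1) ^ (m + 2))⁻¹) a b Y = 0 := by
  set H : ℂ → ℂ := fun s => -((m + 1 : ℂ))⁻¹ * ((s - 1) ^ (m + 1))⁻¹ with hH
  have hm : ((m : ℂ) + 1) ≠ 0 := by exact_mod_cast Nat.succ_ne_zero m
  have hd : ∀ s : ℂ, s - 1 ≠ 0 → HasDerivAt H (((s - 1) ^ (m + 2))⁻¹) s := by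
    intro s hs
    have h1 : HasDerivAt (fun s : ℂ => (s - 1) ^ (m + 1)) ((m + 1 : ℕ) * (s - 1) ^ m) s := by
      refine (((hasDerivAt_id s).sub_const 1).fun_pow (m + 1)).congr_deriv ?_
      simp
    have h2 := (h1.inv (pow_ne_zero _ hs)).const_mul (-((m + 1 : ℂ))⁻¹)
    refine h2.congr_deriv ?_
    push_cast
    field_simp
    ring
  have hh : ∀ y : ℝ, y ≠ 0 → Continuous (fun x : ℝ => (((x : ℂ) + (y : ℂ) * I - 1) ^ (m + 2))⁻¹) := by
    intro y hy
    refine Continuous.inv₀ (by fun_prop) fun x => pow_ne_zero _ (ne_h hy)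
  have hv : ∀ x : ℝ, x ≠ 1 → Continuous (fun y : ℝ => (((x : ℂ) + (y : ℂ) * I - 1) ^ (m + 2))⁻¹) := by
    intro x hx
    refine Continuous.inv₀ (by fun_prop) fun y => pow_ne_zero _ (ne_v hx)
  have e1 := hseg (H := H) (a := a) (b := b) (y := -Y) (f := fun s => ((s - 1) ^ (m + 2))⁻¹)
    (fun x => hd _ (ne_h (neg_ne_zero.2 hY))) (hh _ (neg_ne_zero.2 hY))
  have e2 := hseg (H := H) (a := a) (b := b) (y := Y) (f := fun s => ((s - 1) ^ (m + 2))⁻¹)
    (fun x => hd _ (ne_h hY)) (hh _ hY)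
  have e3 := vseg (H := H) (c := -Y) (d := Y) (x := b) (f := fun s => ((s - 1) ^ (m + 2))⁻¹)
    (fun x => hd _ (ne_v hb)) (hv _ hb)
  have e4 := vseg (H := H) (c := -Y) (d := Y) (x := a) (f := fun s => ((s - 1) ^ (m + 2))⁻¹)
    (fun x => hd _ (ne_v ha)) (hv _ ha)
  unfold rectR
  rw [e1, e2, e3, e4]
  ring

lemma log_pos_im {w : ℂ} (hw : 0 < w.im) : Complex.log w - Complex.log (-w) = Real.pi * I := by
  unfold Complex.log
  rw [Complex.arg_neg_eq_arg_sub_pi_of_im_pos hw, norm_neg]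
  push_cast
  ring

lemma log_neg_im {w : ℂ} (hw : w.im < 0) : Complex.log w - Complex.log (-w) = -(Real.pi * I) := by
  unfold Complex.log
  rw [Complex.arg_neg_eq_arg_add_pi_of_im_neg hw, norm_neg]
  push_cast
  ring

/-- the simple pole -/
lemma rect_one (ha : a < 1) (hb : 1 < b) (hY : 0 < Y) :
    rectR (fun s => (s - 1)⁻¹) a b Y = 2 * Real.pi * I := by
  have hd1 : ∀ s : ℂ, s - 1 ∈ slitPlane → HasDerivAt (fun s => Complex.log (s - 1)) ((s - 1)⁻¹) s := by
    intro s hs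
    have := ((hasDerivAt_id s).sub_const 1).clog hs
    simpa using this
  have hd2 : ∀ s : ℂ, 1 - s ∈ slitPlane → HasDerivAt (fun s => Complex.log (1 - s)) ((s - 1)⁻¹) s := by
    intro s hs
    have := ((hasDerivAt_id s).const_sub 1).clog hs
    refine this.congr_deriv ?_
    have h1 : 1 - s ≠ 0 := slitPlane_ne_zero hs
    have h2 : s - 1 ≠ 0 := by
      intro h; apply h1; linear_combination -h
    simp only [id]
    field_simp
    ring
  have hh : ∀ y : ℝ, y ≠ 0 → Continuous (fun x : ℝ => ((x : ℂ) + (y : ℂ) * I - 1)⁻¹) := by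
    intro y hy
    exact Continuous.inv₀ (by fun_prop) fun x => ne_h hy
  have hv : ∀ x : ℝ, x ≠ 1 → Continuous (fun y : ℝ => ((x : ℂ) + (y : ℂ) * I - 1)⁻¹) := by
    intro x hx
    exact Continuous.inv₀ (by fun_prop) fun y => ne_v hx
  have e1 := hseg (H := fun s => Complex.log (s - 1)) (a := a) (b := b) (y := -Y) (f := fun s => (s - 1)⁻¹)
    (fun x => hd1 _ (by
      rw [mem_slitPlane_iff]; right; simp; exact hY.ne')) (hh _ (neg_ne_zero.2 hY.ne'))
  have e2 := hseg (H := fun s => Complex.log (s - 1)) (a := a) (b := b) (y := Y) (f := fun s => (s - 1)⁻¹)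
    (fun x => hd1 _ (by
      rw [mem_slitPlane_iff]; right; simp; exact hY.ne')) (hh _ hY.ne')
  have e3 := vseg (H := fun s => Complex.log (s - 1)) (c := -Y) (d := Y) (x := b) (f := fun s => (s - 1)⁻¹)
    (fun x => hd1 _ (by
      rw [mem_slitPlane_iff]; left; simp; exact hb)) (hv _ hb.ne')
  have e4 := vseg (H := fun s => Complex.log (1 - s)) (c := -Y) (d := Y) (x := a) (f := fun s => (s - 1)⁻¹)
    (fun x => hd2 _ (by
      rw [mem_slitPlane_iff]; left; simp; exact ha)) (hv _ ha.ne)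
  unfold rectR
  rw [e1, e2, e3, e4]
  have l1 := log_pos_im (w := (a : ℂ) + (Y : ℂ) * I - 1) (by simp; exact hY)
  have l2 := log_neg_im (w := (a : ℂ) + ((-Y : ℝ) : ℂ) * I - 1) (by simp; exact hY)
  have q1 : -((a : ℂ) + (Y : ℂ) * I - 1) = 1 - ((a : ℂ) + (Y : ℂ) * I) := by ring
  have q2 : -((a : ℂ) + ((-Y : ℝ) : ℂ) * I - 1) = 1 - ((a : ℂ) + ((-Y : ℝ) : ℂ) * I) := by ring
  rw [q1] at l1
  rw [q2] at l2
  linear_combination l1 - l2

lemma circle_one : ∮ z in C((1 : ℂ), (1 / 4 : ℝ)), (z - 1)⁻¹ = 2 * Real.pi * I :=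
  circleIntegral.integral_sub_inv_of_mem_ball (by simp)

lemma circle_high (m : ℕ) : ∮ z in C((1 : ℂ), (1 / 4 : ℝ)), ((z - 1) ^ (m + 2))⁻¹ = 0 := by
  have h := circleIntegral.integral_sub_zpow_of_ne (n := -((m : ℤ) + 2)) (by omega) (1 : ℂ) (1 : ℂ) (1 / 4 : ℝ)
  have e : (fun z : ℂ => ((z - 1) ^ (m + 2))⁻¹) = fun z : ℂ => (z - 1) ^ (-((m : ℤ) + 2)) := by
    funext z
    rw [zpow_neg]
    norm_cast
  rw [e]
  exact h

lemma rect_add {f g : ℂ → ℂ} (hfh : ∀ y : ℝ, y ≠ 0 → Continuous (fun x : ℝ => f ((x : ℂ) + (y : ℂ) * I)))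
    (hfv : ∀ x : ℝ, x ≠ 1 → Continuous (fun y : ℝ => f ((x : ℂ) + (y : ℂ) * I)))
    (hgh : ∀ y : ℝ, y ≠ 0 → Continuous (fun x : ℝ => g ((x : ℂ) + (y : ℂ) * I)))
    (hgv : ∀ x : ℝ, x ≠ 1 → Continuous (fun y : ℝ => g ((x : ℂ) + (y : ℂ) * I)))
    (ha : a ≠ 1) (hb : b ≠ 1) (hY : Y ≠ 0) :
    rectR (fun s => f s + g s) a b Y = rectR f a b Y + rectR g a b Y := by
  unfold rectR
  have hY' : -Y ≠ 0 := neg_ne_zero.2 hY
  rw [intervalIntegral.integral_add ((hfh _ hY').intervalIntegrable _ _) ((hgh _ hY').intervalIntegrable _ _),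
    intervalIntegral.integral_add ((hfh _ hY).intervalIntegrable _ _) ((hgh _ hY).intervalIntegrable _ _),
    intervalIntegral.integral_add ((hfv _ hb).intervalIntegrable _ _) ((hgv _ hb).intervalIntegrable _ _),
    intervalIntegral.integral_add ((hfv _ ha).intervalIntegrable _ _) ((hgv _ ha).intervalIntegrable _ _)]
  ring

lemma rect_smul (c : ℂ) (f : ℂ → ℂ) : rectR (fun s => c * f s) a b Y = c * rectR f a b Y := by
  unfold rectR
  simp only [intervalIntegral.integral_const_mul]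
  ring

lemma rect_congr {f g : ℂ → ℂ} (h : ∀ s : ℂ, s ≠ 1 → f s = g s) (ha : a ≠ 1) (hb : b ≠ 1) (hY : Y ≠ 0) :
    rectR f a b Y = rectR g a b Y := by
  have h1 : ∀ x y : ℝ, y ≠ 0 → f ((x : ℂ) + (y : ℂ) * I) = g ((x : ℂ) + (y : ℂ) * I) :=
    fun x y hy => h _ (sub_ne_zero.1 (ne_h hy))
  have h2 : ∀ x y : ℝ, x ≠ 1 → f ((x : ℂ) + (y : ℂ) * I) = g ((x : ℂ) + (y : ℂ) * I) :=
    fun x y hy => h _ (sub_ne_zero.1 (ne_v hy))
  unfold rectR
  rw [intervalIntegral.integral_congr (fun x _ => h1 x (-Y) (neg_ne_zero.2 hY)),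
    intervalIntegral.integral_congr (fun x _ => h1 x Y hY),
    intervalIntegral.integral_congr (fun y _ => h2 b y hb),
    intervalIntegral.integral_congr (fun y _ => h2 a y ha)]

/-- the residue theorem for a rectangle: pole at `1` -/
theorem rect_pole (ha : a < 1) (hb : 1 < b) (hY : 0 < Y) (k : ℕ) : ∀ N : ℂ → ℂ, Differentiable ℂ N →
    rectR (fun s => N s * ((s - 1) ^ k)⁻¹) a b Y = ∮ z in C((1 : ℂ), (1 / 4 : ℝ)), N z * ((z - 1) ^ k)⁻¹ := by
  induction k with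
  | zero =>
    intro N hN
    simp only [pow_zero, inv_one, mul_one]
    have h1 : ∮ z in C((1 : ℂ), (1 / 4 : ℝ)), N z = 0 :=
      Complex.circleIntegral_eq_zero_of_differentiable_on_off_countable (by norm_num) countable_empty
        hN.continuous.continuousOn (fun z _ => hN z)
    rw [h1]
    have hrect := Complex.integral_boundary_rect_eq_zero_of_differentiableOn N
      ((a : ℝ) + (-Y : ℝ) * I) ((b : ℝ) + (Y : ℝ) * I) hN.differentiableOn
    simp only [add_re, ofReal_re, mul_re, I_re, mul_zero, ofReal_im, I_im, mul_one, sub_self,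
      add_zero, add_im, mul_im, zero_add, smul_eq_mul] at hrect
    exact hrect
  | succ k ih =>
    intro N hN
    set M : ℂ → ℂ := dslope N 1 with hM
    have hMd : Differentiable ℂ M := by
      rw [← differentiableOn_univ] at hN ⊢
      exact (Complex.differentiableOn_dslope (by simp)).2 hN
    have hsp : ∀ s : ℂ, s ≠ 1 → N s * ((s - 1) ^ (k + 1))⁻¹ =
        N 1 * ((s - 1) ^ (k + 1))⁻¹ + M s * ((s - 1) ^ k)⁻¹ := by
      intro s hs
      have hs' : s - 1 ≠ 0 := sub_ne_zero.2 hs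
      rw [hM, dslope_of_ne _ hs, slope_def_field]
      field_simp
      ring
    have hch : ∀ (Q : ℂ → ℂ) (hQ : Differentiable ℂ Q) (j : ℕ) (y : ℝ), y ≠ 0 →
        Continuous (fun x : ℝ => Q ((x : ℂ) + (y : ℂ) * I) * (((x : ℂ) + (y : ℂ) * I - 1) ^ j)⁻¹) := by
      intro Q hQ j y hy
      refine (hQ.continuous.comp (by fun_prop)).mul (Continuous.inv₀ (by fun_prop) fun x => pow_ne_zero _ (ne_h hy))
    have hcv : ∀ (Q : ℂ → ℂ) (hQ : Differentiable ℂ Q) (j : ℕ) (x : ℝ), x ≠ 1 →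
        Continuous (fun y : ℝ => Q ((x : ℂ) + (y : ℂ) * I) * (((x : ℂ) + (y : ℂ) * I - 1) ^ j)⁻¹) := by
      intro Q hQ j x hx
      refine (hQ.continuous.comp (by fun_prop)).mul (Continuous.inv₀ (by fun_prop) fun y => pow_ne_zero _ (ne_v hx))
    have hcc : ∀ (Q : ℂ → ℂ) (hQ : Differentiable ℂ Q) (j : ℕ),
        CircleIntegrable (fun z => Q z * ((z - 1) ^ j)⁻¹) 1 (1 / 4) := by
      intro Q hQ j
      refine ContinuousOn.circleIntegrable (by norm_num) ?_
      refine hQ.continuous.continuousOn.mul (ContinuousOn.inv₀ (by fun_prop) fun z hz => pow_ne_zero _ ?_)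
      rw [mem_sphere_iff_norm] at hz
      intro h
      rw [h] at hz
      norm_num at hz
    rw [rect_congr hsp ha.ne hb.ne' hY.ne',
      rect_add (f := fun s => N 1 * ((s - 1) ^ (k + 1))⁻¹) (g := fun s => M s * ((s - 1) ^ k)⁻¹)
        (hch _ (differentiable_const _) _) (hcv _ (differentiable_const _) _) (hch _ hMd _) (hcv _ hMd _)
        ha.ne hb.ne' hY.ne', ih M hMd]
    have e1 : ∮ z in C((1 : ℂ), (1 / 4 : ℝ)), N z * ((z - 1) ^ (k + 1))⁻¹ =
        (∮ z in C((1 : ℂ), (1 / 4 : ℝ)), N 1 * ((z - 1) ^ (k + 1))⁻¹) +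
          ∮ z in C((1 : ℂ), (1 / 4 : ℝ)), M z * ((z - 1) ^ k)⁻¹ := by
      rw [← circleIntegral.integral_add (hcc _ (differentiable_const _) _) (hcc _ hMd _)]
      refine circleIntegral.integral_congr (by norm_num) fun z hz => ?_
      refine hsp z ?_
      rw [mem_sphere_iff_norm] at hz
      intro h
      rw [h] at hz
      norm_num at hz
    rw [e1]
    congr 1
    rw [rect_smul, circleIntegral.integral_const_mul]
    congr 1
    rcases k with _ | m
    · simp only [zero_add, pow_one]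
      rw [rect_one ha hb hY, circle_one]
    · rw [show m + 1 + 1 = m + 2 from rfl, rect_high ha.ne hb.ne' hY.ne' m, circle_high]

end

end Pool.Agent.K4H24.RS
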