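import Pool.Agent.K4H24.RS.Rect

set_option autoImplicit false

/-! The residue theorem for a strip. -/

namespace Pool.Agent.K4H24.RS

open Complex MeasureTheory Filter Topology Set

noncomputable section

lemma inv_sq_int : Integrable (fun y : ℝ => ((1 + |y|) ^ 2)⁻¹) := by
  have h := integrable_inv_one_add_sq
  refine Integrable.mono' h (by fun_prop (disch := intro x; positivity)) (Eventually.of_forall fun y => ?_)
  rw [Real.norm_of_nonneg (by positivity)]
  refine inv_anti₀ (by positivity) ?_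
  have := sq_abs y
  nlinarith [abs_nonneg y]

/-- the residue theorem for a strip, pole at `1` -/
theorem strip_res {N : ℂ → ℂ} (hN : Differentiable ℂ N) {a b B R : ℝ} (ha : a < 1) (hb : 1 < b) (k : ℕ)
    (hB0 : 0 ≤ B)
    (hBh : ∀ s : ℂ, a ≤ s.re → s.re ≤ b → R ≤ |s.im| → ‖N s * ((s - 1) ^ k)⁻¹‖ ≤ B / (1 + |s.im|) ^ 2)
    (hBa : ∀ y : ℝ, ‖N ((a : ℂ) + y * I) * (((a : ℂ) + y * I - 1) ^ k)⁻¹‖ ≤ B / (1 + |y|) ^ 2)
    (hBb : ∀ y : ℝ, ‖N ((b : ℂ) + y * I) * (((b : ℂ) + y * I - 1) ^ k)⁻¹‖ ≤ B / (1 + |y|) ^ 2) :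
    I * ((∫ y : ℝ, N ((b : ℂ) + y * I) * (((b : ℂ) + y * I - 1) ^ k)⁻¹) -
      ∫ y : ℝ, N ((a : ℂ) + y * I) * (((a : ℂ) + y * I - 1) ^ k)⁻¹) =
      ∮ z in C((1 : ℂ), (1 / 4 : ℝ)), N z * ((z - 1) ^ k)⁻¹ := by
  set f : ℂ → ℂ := fun s => N s * ((s - 1) ^ k)⁻¹ with hf
  have hcv : ∀ x : ℝ, x ≠ 1 → Continuous (fun y : ℝ => f ((x : ℂ) + (y : ℂ) * I)) := by
    intro x hx
    refine (hN.continuous.comp (by fun_prop)).mul (Continuous.inv₀ (by fun_prop) fun y => pow_ne_zero _ (ne_v hx))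
  have hint : ∀ x : ℝ, x ≠ 1 → (∀ y : ℝ, ‖f ((x : ℂ) + y * I)‖ ≤ B / (1 + |y|) ^ 2) →
      Integrable (fun y : ℝ => f ((x : ℂ) + y * I)) := by
    intro x hx h
    refine (inv_sq_int.const_mul B).mono' (hcv x hx).aestronglyMeasurable (Eventually.of_forall fun y => ?_)
    have := h y
    rwa [← div_eq_mul_inv]
  have ta := intervalIntegral_tendsto_integral (hint a ha.ne hBa) tendsto_neg_atTop_atBot tendsto_id
  have tb := intervalIntegral_tendsto_integral (hint b hb.ne' hBb) tendsto_neg_atTop_atBot tendsto_id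
  set W : ℂ := ∮ z in C((1 : ℂ), (1 / 4 : ℝ)), N z * ((z - 1) ^ k)⁻¹ with hW
  have hdiff : Tendsto (fun Y : ℝ => I * ((∫ y in (-Y)..Y, f ((b : ℂ) + y * I)) -
      ∫ y in (-Y)..Y, f ((a : ℂ) + y * I)) - W) atTop (𝓝 0) := by
    rw [tendsto_zero_iff_norm_tendsto_zero]
    have h6 : Tendsto (fun Y : ℝ => 2 * (B * (b - a)) * Y⁻¹) atTop (𝓝 0) := by
      simpa using tendsto_inv_atTop_zero.const_mul (2 * (B * (b - a)))
    refine squeeze_zero' (Eventually.of_forall fun _ => norm_nonneg _) ?_ h6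
    filter_upwards [eventually_gt_atTop 0, eventually_ge_atTop R] with Y hY hYR
    have hrect := rect_pole ha hb hY k N hN
    have hab : a ≤ b := by linarith
    have hor : ∀ y : ℝ, |y| = Y → ∀ x ∈ uIoc a b, ‖f (x + y * I)‖ ≤ B * Y⁻¹ := by
      intro y hy x hx
      rw [uIoc_of_le hab] at hx
      have e : ((x : ℂ) + y * I).im = y := by simp
      have := hBh ((x : ℂ) + y * I) (by simpa using hx.1.le) (by simpa using hx.2) (by rw [e, hy]; exact hYR)
      rw [e, hy] at this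
      refine this.trans ?_
      rw [← div_eq_mul_inv]
      refine div_le_div_of_nonneg_left hB0 hY ?_
      nlinarith
    have hh1 : ‖∫ x in a..b, f (x + (-Y : ℝ) * I)‖ ≤ B * Y⁻¹ * |b - a| :=
      intervalIntegral.norm_integral_le_of_norm_le_const
        (hor (-Y) (by rw [abs_neg, abs_of_pos hY]))
    have hh2 : ‖∫ x in a..b, f (x + (Y : ℝ) * I)‖ ≤ B * Y⁻¹ * |b - a| :=
      intervalIntegral.norm_integral_le_of_norm_le_const (hor Y (abs_of_pos hY))
    rw [abs_of_nonneg (by linarith)] at hh1 hh2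
    have e5 : I * ((∫ y in (-Y)..Y, f ((b : ℂ) + y * I)) - ∫ y in (-Y)..Y, f ((a : ℂ) + y * I)) - W =
        (∫ x in a..b, f (x + (Y : ℝ) * I)) - ∫ x in a..b, f (x + (-Y : ℝ) * I) := by
      rw [hW, ← hrect]
      unfold rectR
      ring
    rw [e5]
    refine (norm_sub_le _ _).trans ?_
    linarith
  have h7 := ((tb.sub ta).const_mul I).sub_const W
  have h8 := tendsto_nhds_unique h7 hdiff
  exact sub_eq_zero.1 h8

end

end Pool.Agent.K4H24.RS
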